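import Mathlib

/-!
# Tropicalized Gaussians over non-archimedean local fields: definitions

A non-archimedean local field is a nontrivially normed field `K` whose norm is ultrametric and whose
closed balls are compact (`ProperSpace K`).
-/

set_option autoImplicit false

open MeasureTheory
open scoped NormedField Valued

namespace Pool.Agent.R996.Trop

variable {K : Type*} [NontriviallyNormedField K] [IsUltrametricDist K] {d : ℕ}

/-- `π` is a uniformiser: a nonzero element of norm `< 1` of the largest possible norm, that is, a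
generator of the maximal ideal of the ring of integers. -/
def IsUniformizer (π : K) : Prop := π ≠ 0 ∧ ‖π‖ < 1 ∧ ∀ x : K, ‖x‖ < 1 → ‖x‖ ≤ ‖π‖

/-- The lattice `A 𝒪^d`, `A ∈ GL_d(K)`, where `𝒪 = {x | ‖x‖ ≤ 1}` is the ring of integers. -/
def lattice (A : GL (Fin d) K) : Set (Fin d → K) :=
  {y | ∃ x : Fin d → K, (∀ i, ‖x i‖ ≤ 1) ∧ y = A.1.mulVec x}

/-- The event `V ≥ v`: `val (x_i) ≥ v_i` for all `i`, that is, `‖x_i‖ ≤ ‖π‖ ^ v_i`. -/
def tailEvent (π : K) (v : Fin d → ℤ) : Set (Fin d → K) := {x | ∀ i, ‖x i‖ ≤ ‖π‖ ^ v i}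

section

variable [ProperSpace K] [MeasurableSpace K] [BorelSpace K]

/-- The law of a Gaussian with lattice `L`: the Haar measure of `K^d` restricted to `L` and
normalised (`S ↦ μ(S ∩ L) / μ(L)`), that is, the Haar probability measure of `L`. -/
noncomputable def gaussianLaw (L : Set (Fin d → K)) : Measure (Fin d → K) :=
  ((Measure.addHaar : Measure (Fin d → K)) L)⁻¹ • (Measure.addHaar : Measure (Fin d → K)).restrict L

/-- `φ_L(v) = - log_q P(V ≥ v)` for `L = A 𝒪^d`, with `q` the size of the residue field. -/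
noncomputable def phiL (π : K) (A : GL (Fin d) K) (v : Fin d → ℤ) : ℝ :=
  -Real.logb (Nat.card 𝓀[K]) ((gaussianLaw (lattice A)) (tailEvent π v)).toReal

end

/-- Integer supermodular coefficients on the cube. -/
def IsSupermodular (c : Finset (Fin d) → ℤ) : Prop :=
  c ∅ = 0 ∧ ∀ I J : Finset (Fin d), c I + c J ≤ c (I ∪ J) + c (I ∩ J)

/-- The tropical polynomial `v ↦ max_I (∑_{i ∈ I} v_i - c_I)`. -/
noncomputable def tropPoly (c : Finset (Fin d) → ℤ) (v : Fin d → ℝ) : ℝ :=
  Finset.univ.sup' ⟨∅, Finset.mem_univ _⟩ fun I : Finset (Fin d) => ∑ i ∈ I, v i - (c I : ℝ)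

end Pool.Agent.R996.Trop
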