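import Pool.Agent.R996.Trop.Defs

set_option autoImplicit false
set_option linter.style.haveILetI false
set_option linter.unusedSectionVars false

open MeasureTheory
open scoped NormedField Valued

namespace Pool.Agent.R996.Trop.Gen

def vI {d : ℕ} (N : ℤ) (M : ℕ) (I : Finset (Fin d)) (i : Fin d) : ℤ := if i ∈ I then N else -M

section field

variable {K : Type*} [NontriviallyNormedField K] [IsUltrametricDist K] {d : ℕ}

/-- the lattice as a subgroup -/
def latG (A : GL (Fin d) K) : AddSubgroup (Fin d → K) where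
  carrier := lattice A
  add_mem' := by
    rintro _ _ ⟨x, hx, rfl⟩ ⟨y, hy, rfl⟩
    refine ⟨x + y, fun i => ?_, by rw [Matrix.mulVec_add]⟩
    exact (IsUltrametricDist.norm_add_le_max _ _).trans (max_le (hx i) (hy i))
  zero_mem' := ⟨0, fun i => by simp, by simp⟩
  neg_mem' := by
    rintro _ ⟨x, hx, rfl⟩
    exact ⟨-x, fun i => by simpa using hx i, by rw [Matrix.mulVec_neg]⟩

/-- tail subgroup -/
def H (π : K) (N : ℤ) (A : GL (Fin d) K) (I : Finset (Fin d)) : AddSubgroup (latG A) where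
  carrier := {x | ∀ i ∈ I, ‖x.1 i‖ ≤ ‖π‖ ^ N}
  add_mem' := by
    intro x y hx hy i hi
    exact (IsUltrametricDist.norm_add_le_max _ _).trans (max_le (hx i hi) (hy i hi))
  zero_mem' := fun i _ => by simpa using zpow_nonneg (norm_nonneg π) N
  neg_mem' := by
    intro x hx i hi
    simpa using hx i hi

lemma H_inf (π : K) (N : ℤ) (A : GL (Fin d) K) (I J : Finset (Fin d)) :
    H π N A I ⊓ H π N A J = H π N A (I ∪ J) := by
  ext x
  simp only [AddSubgroup.mem_inf]
  constructor
  · rintro ⟨h1, h2⟩ i hi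
    rcases Finset.mem_union.mp hi with h | h
    · exact h1 i h
    · exact h2 i h
  · intro h
    exact ⟨fun i hi => h i (Finset.mem_union_left _ hi), fun i hi => h i (Finset.mem_union_right _ hi)⟩

variable [ProperSpace K]

lemma isCompact_lattice (A : GL (Fin d) K) : IsCompact (lattice A) := by
  have h1 : IsCompact (Set.pi Set.univ fun _ : Fin d => Metric.closedBall (0:K) 1) :=
    isCompact_univ_pi fun _ => isCompact_closedBall 0 1
  have h2 : Continuous fun x : Fin d → K => A.1.mulVec x :=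
    Continuous.matrix_mulVec continuous_const continuous_id
  have h3 : lattice A = (fun x : Fin d → K => A.1.mulVec x) ''
      (Set.pi Set.univ fun _ : Fin d => Metric.closedBall (0:K) 1) := by
    ext y
    constructor
    · rintro ⟨x, hx, rfl⟩
      exact ⟨x, fun i _ => by simpa using hx i, rfl⟩
    · rintro ⟨x, hx, rfl⟩
      exact ⟨x, fun i => by simpa using hx i (Set.mem_univ i), rfl⟩
  rw [h3]
  exact h1.image h2

lemma exists_M {π : K} (h0 : π ≠ 0) (h1 : ‖π‖ < 1) (A : GL (Fin d) K) :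
    ∃ M : ℕ, 4 ≤ M ∧ ∀ x ∈ lattice A, ∀ i, ‖x i‖ ≤ ‖π‖ ^ (-(M : ℤ)) := by
  obtain ⟨C, hC⟩ := (isCompact_lattice A).isBounded.exists_norm_le
  have hp : 0 < ‖π‖ := norm_pos_iff.mpr h0
  have hinv : 1 < ‖π‖⁻¹ := (one_lt_inv₀ hp).mpr h1
  obtain ⟨n, hn⟩ := pow_unbounded_of_one_lt C hinv
  refine ⟨max n 4, le_max_right _ _, fun x hx i => ?_⟩
  have h2 : ‖x i‖ ≤ C := (norm_le_pi_norm x i).trans (hC x hx)
  rw [zpow_neg, zpow_natCast, ← inv_pow]
  exact h2.trans (hn.le.trans (pow_le_pow_right₀ hinv.le (le_max_left _ _)))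

lemma H_finite {π : K} (h0 : π ≠ 0) (N : ℤ) (A : GL (Fin d) K) (I : Finset (Fin d)) :
    (H π N A I).FiniteIndex := by
  haveI : CompactSpace (latG A) := isCompact_iff_compactSpace.mp (isCompact_lattice A)
  have hp : 0 < ‖π‖ ^ N := zpow_pos (norm_pos_iff.mpr h0) N
  have ho : IsOpen (H π N A I : Set (latG A)) := by
    have : (H π N A I : Set (latG A)) = ⋂ i ∈ I, (fun x : latG A => x.1 i) ⁻¹' (Metric.closedBall 0 (‖π‖ ^ N)) := by
      ext x
      simp only [Set.mem_iInter, Set.mem_preimage, mem_closedBall_zero_iff]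
      rfl
    rw [this]
    refine isOpen_biInter_finset fun i _ => ?_
    exact (IsUltrametricDist.isOpen_closedBall (0:K) hp.ne').preimage
      ((continuous_apply i).comp continuous_subtype_val)
  haveI := AddSubgroup.quotient_finite_of_isOpen (H π N A I) ho
  exact AddSubgroup.finiteIndex_of_finite_quotient

variable [MeasurableSpace K] [BorelSpace K]

lemma H_meas {π : K} (N : ℤ) (A : GL (Fin d) K) (I : Finset (Fin d)) :
    ((H π N A I).FiniteIndex) → ((H π N A I).index : ENNReal) *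
      (Measure.addHaar : Measure (Fin d → K)) (Subtype.val '' (H π N A I : Set (latG A)))
      = (Measure.addHaar : Measure (Fin d → K)) (lattice A) := by
  intro hfin
  have hLm : MeasurableSet (lattice A) := (isCompact_lattice A).measurableSet
  have hemb : MeasurableEmbedding (Subtype.val : latG A → (Fin d → K)) := MeasurableEmbedding.subtype_coe hLm
  set μ : Measure (Fin d → K) := Measure.addHaar with hμ
  set ν : Measure (latG A) := μ.comap Subtype.val with hν
  have hν' : ∀ s : Set (latG A), ν s = μ (Subtype.val '' s) := fun s => hemb.comap_apply μ s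
  haveI : ν.IsAddLeftInvariant := by
    refine ⟨fun g => ?_⟩
    ext s hs
    rw [Measure.map_apply (measurable_const_add g) hs, hν', hν']
    have : Subtype.val '' ((fun x => g + x) ⁻¹' s) = (fun x => (g : Fin d → K) + x) ⁻¹' (Subtype.val '' s) := by
      ext x
      constructor
      · rintro ⟨y, hy, rfl⟩
        exact ⟨g + y, hy, rfl⟩
      · rintro ⟨y, hy, hxy⟩
        refine ⟨⟨x, ?_⟩, ?_, rfl⟩
        · have : x = (y : Fin d → K) - g := by rw [hxy]; simp
          rw [this]
          exact (latG A).sub_mem y.2 g.2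
        · have : g + (⟨x, by
            have : x = (y : Fin d → K) - g := by rw [hxy]; simp
            rw [this]
            exact (latG A).sub_mem y.2 g.2⟩ : latG A) = y := Subtype.ext hxy.symm
          show g + _ ∈ s
          rw [this]
          exact hy
    rw [this, measure_preimage_add]
  have hm : MeasurableSet (H π N A I : Set (latG A)) := by
    have : (H π N A I : Set (latG A)) = ⋂ i ∈ I, (fun x : latG A => x.1 i) ⁻¹' (Metric.closedBall 0 (‖π‖ ^ N)) := by
      ext x
      simp only [Set.mem_iInter, Set.mem_preimage, mem_closedBall_zero_iff]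
      rfl
    rw [this]
    refine IsClosed.measurableSet ?_
    refine isClosed_biInter fun i _ => ?_
    exact Metric.isClosed_closedBall.preimage ((continuous_apply i).comp continuous_subtype_val)
  have h := AddSubgroup.index_mul_measure (H π N A I) hm ν
  rw [hν', hν', Set.image_univ, Subtype.range_coe_subtype] at h
  exact h

lemma inter_eq {π : K} {N : ℤ} {M : ℕ} {A : GL (Fin d) K}
    (hM : ∀ x ∈ lattice A, ∀ i, ‖x i‖ ≤ ‖π‖ ^ (-(M : ℤ))) (I : Finset (Fin d)) :
    tailEvent π (vI N M I) ∩ lattice A = Subtype.val '' (H π N A I : Set (latG A)) := by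
  ext x
  constructor
  · rintro ⟨h1, h2⟩
    refine ⟨⟨x, h2⟩, fun i hi => ?_, rfl⟩
    have := h1 i
    simpa [vI, hi] using this
  · rintro ⟨y, hy, rfl⟩
    refine ⟨fun i => ?_, y.2⟩
    by_cases hi : i ∈ I
    · have := hy i hi
      simpa [vI, hi] using this
    · have := hM y.1 y.2 i
      simpa [vI, hi] using this

lemma phi_eq {π : K} {N : ℤ} {M : ℕ} {A : GL (Fin d) K} (h0 : π ≠ 0)
    (hM : ∀ x ∈ lattice A, ∀ i, ‖x i‖ ≤ ‖π‖ ^ (-(M : ℤ))) (I : Finset (Fin d))
    (hne : phiL π A (vI N M I) ≠ 0) :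
    phiL π A (vI N M I) = Real.logb (Nat.card 𝓀[K]) ((H π N A I).index : ℝ) := by
  have hfin := H_finite h0 N A I
  have key := H_meas (π := π) N A I hfin
  have hmt : MeasurableSet (tailEvent π (vI N M I)) := by
    refine IsClosed.measurableSet ?_
    have : tailEvent π (vI N M I) = ⋂ i, (fun x : Fin d → K => x i) ⁻¹' (Metric.closedBall 0 (‖π‖ ^ vI N M I i)) := by
      ext x
      simp [tailEvent]
    rw [this]
    exact isClosed_iInter fun i => Metric.isClosed_closedBall.preimage (continuous_apply i)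
  have hlt : (Measure.addHaar : Measure (Fin d → K)) (lattice A) ≠ ⊤ :=
    (isCompact_lattice A).measure_lt_top.ne
  have hP : (gaussianLaw (lattice A)) (tailEvent π (vI N M I)) =
      ((Measure.addHaar : Measure (Fin d → K)) (lattice A))⁻¹ *
      (Measure.addHaar : Measure (Fin d → K)) (Subtype.val '' (H π N A I : Set (latG A))) := by
    unfold gaussianLaw
    rw [Measure.smul_apply, smul_eq_mul, Measure.restrict_apply hmt, inter_eq hM]
  set l := (Measure.addHaar : Measure (Fin d → K)) (lattice A) with hl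
  set t := (Measure.addHaar : Measure (Fin d → K)) (Subtype.val '' (H π N A I : Set (latG A))) with ht
  have hl0 : l ≠ 0 := by
    intro h
    apply hne
    unfold phiL
    rw [hP, h]
    have : t = 0 := by
      rw [h] at key
      rcases mul_eq_zero.mp key with h1 | h1
      · exact absurd (by exact_mod_cast h1) hfin.index_ne_zero
      · exact h1
    rw [this]
    simp
  unfold phiL
  rw [hP]
  have hk : ((H π N A I).index : ℝ) * t.toReal = l.toReal := by
    rw [← key, ENNReal.toReal_mul, ENNReal.toReal_natCast]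
  have hl0' : l.toReal ≠ 0 := (ENNReal.toReal_pos hl0 hlt).ne'
  have hi0 : ((H π N A I).index : ℝ) ≠ 0 := by exact_mod_cast hfin.index_ne_zero
  have ht0 : t.toReal ≠ 0 := by
    intro h
    rw [h, mul_zero] at hk
    exact hl0' hk.symm
  have : (l⁻¹ * t).toReal = ((H π N A I).index : ℝ)⁻¹ := by
    rw [ENNReal.toReal_mul, ENNReal.toReal_inv, ← hk]
    field_simp
  rw [this, Real.logb_inv, neg_neg]


end field

section three

variable {d : ℕ}

/-- `1` if `0, 1 ∈ I`, plus `1` if `0, 2 ∈ I` -/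
def c3 (h : 3 ≤ d) (I : Finset (Fin d)) : ℤ :=
  (if (⟨0, by omega⟩ : Fin d) ∈ I ∧ (⟨1, by omega⟩ : Fin d) ∈ I then 1 else 0)
    + (if (⟨0, by omega⟩ : Fin d) ∈ I ∧ (⟨2, by omega⟩ : Fin d) ∈ I then 1 else 0)

lemma c3_super (h : 3 ≤ d) : IsSupermodular (c3 h) := by
  refine ⟨by simp [c3], fun I J => ?_⟩
  unfold c3
  simp only [Finset.mem_union, Finset.mem_inter]
  by_cases a0 : (⟨0, by omega⟩ : Fin d) ∈ I <;> by_cases a1 : (⟨1, by omega⟩ : Fin d) ∈ I <;>
  by_cases a2 : (⟨2, by omega⟩ : Fin d) ∈ I <;> by_cases b0 : (⟨0, by omega⟩ : Fin d) ∈ J <;>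
  by_cases b1 : (⟨1, by omega⟩ : Fin d) ∈ J <;> by_cases b2 : (⟨2, by omega⟩ : Fin d) ∈ J <;>
  simp [a0, a1, a2, b0, b1, b2]

lemma c3_nonneg (h : 3 ≤ d) (I : Finset (Fin d)) : 0 ≤ c3 h I := by
  unfold c3; split_ifs <;> simp

lemma sum_le (M : ℕ) (I J : Finset (Fin d)) :
    ∑ i ∈ J, (vI 1 M I i : ℝ) ≤ (J ∩ I).card := by
  have h2 : ∑ i ∈ J, (vI 1 M I i : ℝ) = ∑ i ∈ J ∩ I, (vI 1 M I i : ℝ) + ∑ i ∈ J \ I, (vI 1 M I i : ℝ) := by
    rw [← Finset.sum_union (Finset.disjoint_sdiff_inter J I).symm, Finset.union_comm,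
      Finset.sdiff_union_inter]
  have h3 : ∑ i ∈ J ∩ I, (vI 1 M I i : ℝ) = (J ∩ I).card := by
    rw [Finset.sum_congr rfl (g := fun _ => (1 : ℝ))
      (fun i hi => by simp [vI, (Finset.mem_inter.mp hi).2]), Finset.sum_const, nsmul_eq_mul, mul_one]
  have h4 : ∑ i ∈ J \ I, (vI 1 M I i : ℝ) ≤ 0 := by
    refine Finset.sum_nonpos fun i hi => ?_
    simp [vI, (Finset.mem_sdiff.mp hi).2]
  linarith

lemma sum_self (M : ℕ) {I J : Finset (Fin d)} (h : J ⊆ I) :
    ∑ i ∈ J, (vI 1 M I i : ℝ) = J.card := by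
  rw [Finset.sum_congr rfl (g := fun _ => (1 : ℝ))
      (fun i hi => by simp [vI, h hi]), Finset.sum_const, nsmul_eq_mul, mul_one]

lemma trop_single (h : 3 ≤ d) (M : ℕ) (a : Fin d) :
    tropPoly (c3 h) (fun i => (vI 1 M {a} i : ℝ)) = 1 := by
  unfold tropPoly
  apply le_antisymm
  · refine Finset.sup'_le _ _ fun J _ => ?_
    have h1 := sum_le M {a} J
    have h2 : (J ∩ {a}).card ≤ 1 := (Finset.card_le_card Finset.inter_subset_right).trans (by simp)
    have h2' : ((J ∩ {a}).card : ℝ) ≤ 1 := by exact_mod_cast h2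
    have h3 : (0:ℝ) ≤ c3 h J := by exact_mod_cast c3_nonneg h J
    linarith
  · refine le_trans (le_of_eq ?_) (Finset.le_sup' (fun J : Finset (Fin d) =>
      ∑ i ∈ J, (vI 1 M {a} i : ℝ) - (c3 h J : ℝ)) (Finset.mem_univ {a}))
    rw [sum_self M (Finset.Subset.refl _)]
    have : c3 h {a} = 0 := by
      unfold c3
      simp only [Finset.mem_singleton]
      rw [if_neg, if_neg]
      · rfl
      · rintro ⟨h1, h2⟩
        have := congrArg Fin.val (h1.trans h2.symm)
        simp at this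
      · rintro ⟨h1, h2⟩
        have := congrArg Fin.val (h1.trans h2.symm)
        simp at this
    rw [this]
    simp

lemma trop_pair (h : 3 ≤ d) (M : ℕ) (a b : Fin d) (ha : c3 h {a} = 0)
    (hc : ∀ J : Finset (Fin d), a ∈ J → b ∈ J → 1 ≤ c3 h J) :
    tropPoly (c3 h) (fun i => (vI 1 M {a, b} i : ℝ)) = 1 := by
  unfold tropPoly
  apply le_antisymm
  · refine Finset.sup'_le _ _ fun J _ => ?_
    have h1 := sum_le M {a, b} J
    by_cases hJ : a ∈ J ∧ b ∈ J
    · have h2 : (J ∩ {a, b}).card ≤ 2 :=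
        (Finset.card_le_card Finset.inter_subset_right).trans Finset.card_le_two
      have h2' : ((J ∩ {a, b}).card : ℝ) ≤ 2 := by exact_mod_cast h2
      have h3 : (1:ℝ) ≤ c3 h J := by exact_mod_cast hc J hJ.1 hJ.2
      linarith
    · have h2 : (J ∩ {a, b}).card ≤ 1 := by
        rw [Finset.card_le_one]
        intro x hx y hy
        simp only [Finset.mem_inter, Finset.mem_insert, Finset.mem_singleton] at hx hy
        rcases hx with ⟨hx1, rfl | rfl⟩ <;> rcases hy with ⟨hy1, rfl | rfl⟩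
        · rfl
        · exact absurd ⟨hx1, hy1⟩ hJ
        · exact absurd ⟨hy1, hx1⟩ hJ
        · rfl
      have h2' : ((J ∩ {a, b}).card : ℝ) ≤ 1 := by exact_mod_cast h2
      have h3 : (0:ℝ) ≤ c3 h J := by exact_mod_cast c3_nonneg h J
      linarith
  · refine le_trans (le_of_eq ?_) (Finset.le_sup' (fun J : Finset (Fin d) =>
      ∑ i ∈ J, (vI 1 M {a, b} i : ℝ) - (c3 h J : ℝ)) (Finset.mem_univ {a}))
    rw [sum_self M (by simp), ha]
    simp

lemma trop_pair2 (h : 3 ≤ d) (M : ℕ) (a b : Fin d) (hab : a ≠ b) (ha : c3 h {a, b} = 0) :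
    tropPoly (c3 h) (fun i => (vI 1 M {a, b} i : ℝ)) = 2 := by
  unfold tropPoly
  apply le_antisymm
  · refine Finset.sup'_le _ _ fun J _ => ?_
    have h1 := sum_le M {a, b} J
    have h2 : (J ∩ {a, b}).card ≤ 2 :=
      (Finset.card_le_card Finset.inter_subset_right).trans Finset.card_le_two
    have h2' : ((J ∩ {a, b}).card : ℝ) ≤ 2 := by exact_mod_cast h2
    have h3 : (0:ℝ) ≤ c3 h J := by exact_mod_cast c3_nonneg h J
    linarith
  · refine le_trans (le_of_eq ?_) (Finset.le_sup' (fun J : Finset (Fin d) =>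
      ∑ i ∈ J, (vI 1 M {a, b} i : ℝ) - (c3 h J : ℝ)) (Finset.mem_univ {a, b}))
    rw [sum_self M (Finset.Subset.refl _), ha, Finset.card_pair hab]
    norm_num

end three

lemma eq_of_index {G : Type*} [AddCommGroup G] {A B : AddSubgroup G} (h : A ≤ B)
    (hf : A.FiniteIndex) (hi : A.index = B.index) : A = B := by
  by_contra hne
  have := AddSubgroup.index_strictAnti (lt_of_le_of_ne h hne)
  omega

theorem main {d : ℕ} (h : 3 ≤ d) {K : Type*} [NontriviallyNormedField K] [IsUltrametricDist K]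
    [ProperSpace K] [MeasurableSpace K] [BorelSpace K] (π : K) (hπ : IsUniformizer π)
    (A : GL (Fin d) K) : ∃ v : Fin d → ℤ, phiL π A v ≠ tropPoly (c3 h) (fun i => (v i : ℝ)) := by
  by_contra hcon
  push Not at hcon
  obtain ⟨h0, h1, -⟩ := hπ
  obtain ⟨M, hM4, hM⟩ := exists_M h0 h1 A
  set q : ℝ := (Nat.card 𝓀[K] : ℝ) with hq
  set i0 : Fin d := ⟨0, by omega⟩ with hi0
  set i1 : Fin d := ⟨1, by omega⟩ with hi1
  set i2 : Fin d := ⟨2, by omega⟩ with hi2
  have h01 : i0 ≠ i1 := by simp [hi0, hi1]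
  have h02 : i0 ≠ i2 := by simp [hi0, hi2]
  have h12 : i1 ≠ i2 := by simp [hi1, hi2]
  have hphi : ∀ (I : Finset (Fin d)) (x : ℝ), x ≠ 0 →
      tropPoly (c3 h) (fun i => (vI 1 M I i : ℝ)) = x → Real.logb q ((H π 1 A I).index : ℝ) = x := by
    intro I x hx ht
    have h2 : phiL π A (vI 1 M I) = x := by rw [hcon, ht]
    rw [← phi_eq h0 hM I (by rw [h2]; exact hx), h2]
  have hF := fun I => H_finite h0 1 A I
  have hpos : ∀ I, (0:ℝ) < (H π 1 A I).index := fun I => by
    exact_mod_cast Nat.pos_of_ne_zero (hF I).index_ne_zero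
  have hc0 : c3 h {i0} = 0 := by simp [c3, h01.symm, h02.symm, ← hi0, ← hi1, ← hi2]
  have e0 := hphi {i0} 1 one_ne_zero (trop_single h M i0)
  have e1 := hphi {i1} 1 one_ne_zero (trop_single h M i1)
  have e2 := hphi {i2} 1 one_ne_zero (trop_single h M i2)
  have e01 := hphi {i0, i1} 1 one_ne_zero (trop_pair h M i0 i1 hc0 (by
    intro J hJ0 hJ1
    unfold c3
    rw [if_pos ⟨hJ0, hJ1⟩]
    split_ifs <;> simp))
  have e02 := hphi {i0, i2} 1 one_ne_zero (trop_pair h M i0 i2 hc0 (by
    intro J hJ0 hJ2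
    unfold c3
    rw [if_pos (⟨hJ0, hJ2⟩ : (⟨0, by omega⟩ : Fin d) ∈ J ∧ (⟨2, by omega⟩ : Fin d) ∈ J)]
    split_ifs <;> simp))
  have e12 := hphi {i1, i2} 2 two_ne_zero (trop_pair2 h M i1 i2 h12 (by
    simp [c3, ← hi0, ← hi1, ← hi2, h01, h02]))
  have hq1 : 1 < q := by
    by_contra hle
    push Not at hle
    have hle' : ((Nat.card 𝓀[K] : ℕ) : ℝ) ≤ ((1 : ℕ) : ℝ) := by rw [Nat.cast_one]; exact hle
    have h2 : Nat.card 𝓀[K] = 0 ∨ Nat.card 𝓀[K] = 1 := by
      have : Nat.card 𝓀[K] ≤ 1 := Nat.cast_le.mp hle'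
      omega
    have h4 : Real.logb q ((H π 1 A {i0}).index : ℝ) = 0 := by
      unfold Real.logb
      rcases h2 with h | h <;> simp [hq, h]
    rw [h4] at e0
    exact zero_ne_one e0
  have hidx : ∀ I J, Real.logb q ((H π 1 A I).index : ℝ) = Real.logb q ((H π 1 A J).index : ℝ) →
      (H π 1 A I).index = (H π 1 A J).index := by
    intro I J hIJ
    have := Real.logb_injOn_pos hq1 (Set.mem_Ioi.mpr (hpos I)) (Set.mem_Ioi.mpr (hpos J)) hIJ
    exact_mod_cast this
  have hle : ∀ {I J : Finset (Fin d)}, I ⊆ J → H π 1 A J ≤ H π 1 A I := by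
    intro I J hIJ x hx i hi
    exact hx i (hIJ hi)
  have g1 : H π 1 A {i0, i1} = H π 1 A {i0} := eq_of_index (hle (by simp)) (hF _) (hidx _ _ (e01.trans e0.symm))
  have g2 : H π 1 A {i0, i1} = H π 1 A {i1} := eq_of_index (hle (by simp)) (hF _) (hidx _ _ (e01.trans e1.symm))
  have g3 : H π 1 A {i0, i2} = H π 1 A {i0} := eq_of_index (hle (by simp)) (hF _) (hidx _ _ (e02.trans e0.symm))
  have g4 : H π 1 A {i0, i2} = H π 1 A {i2} := eq_of_index (hle (by simp)) (hF _) (hidx _ _ (e02.trans e2.symm))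
  have g5 : H π 1 A {i1, i2} = H π 1 A {i1} := by
    have : ({i1, i2} : Finset (Fin d)) = {i1} ∪ {i2} := by ext; simp
    rw [this, ← H_inf, ← g2, ← g4, g1, g3, inf_idem]
  rw [g5, e1] at e12
  norm_num at e12

end Pool.Agent.R996.Trop.Gen
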